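import Pool.Agent.Y920.ETC.Stm

/-! ET-TOWER: uniqueness of the extension in 2-towers. -/

set_option autoImplicit false

namespace Pool.Agent.Y210.ET

open Pool.Agent.Y920.ETC

theorem t_TOWER : Pool.Agent.Y920.ETC.S_TOWER := by
  intro hQ k
  induction k with
  | zero =>
    intro F M _ _ _ _ _ hd O hO O₁ O₂ h1 h2
    rw [pow_zero] at hd
    have hb : (⊥ : Subalgebra F M) = ⊤ := Subalgebra.bot_eq_top_iff_finrank_eq_one.2 hd
    ext x
    have hx : x ∈ (⊥ : Subalgebra F M) := by
      rw [hb]
      exact Algebra.mem_top
    obtain ⟨y, rfl⟩ := Algebra.mem_bot.1 hx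
    rw [← ValuationSubring.mem_comap, ← ValuationSubring.mem_comap, h1, h2]
  | succ k ih =>
    intro F M _ _ _ _ _ hd O hO O₁ O₂ h1 h2
    have hcard : Nat.card (M ≃ₐ[F] M) = 2 ^ (k + 1) := by
      rw [IsGalois.card_aut_eq_finrank, hd]
    have : Fact (Nat.Prime 2) := ⟨Nat.prime_two⟩
    obtain ⟨U, hU⟩ := Sylow.exists_subgroup_card_pow_prime (G := M ≃ₐ[F] M) 2 (n := k)
      (by rw [hcard]; exact pow_dvd_pow 2 (Nat.le_succ k))
    have hind : U.index = 2 := by
      have h3 := U.card_mul_index
      rw [hU, hcard, pow_succ] at h3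
      exact Nat.eq_of_mul_eq_mul_left (by positivity) h3
    have hnor : U.Normal := Subgroup.normal_of_index_eq_two hind
    have hEM : Module.finrank (IntermediateField.fixedField U) M = 2 ^ k := by
      rw [IntermediateField.finrank_fixedField_eq_card, hU]
    have hFE : Module.finrank F (IntermediateField.fixedField U) = 2 := by
      have h3 := Module.finrank_mul_finrank F (IntermediateField.fixedField U) M
      rw [hEM, hd, pow_succ, mul_comm] at h3
      exact Nat.eq_of_mul_eq_mul_left (by positivity) h3
    have hgal : IsGalois F (IntermediateField.fixedField U) := inferInstance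
    have hc : ∀ P : ValuationSubring M, P.comap (algebraMap F M) = O →
        (P.comap (algebraMap (IntermediateField.fixedField U) M)).comap
          (algebraMap F (IntermediateField.fixedField U)) = O := by
      intro P hP
      rw [← hP]
      rfl
    obtain ⟨hq1, hq2⟩ := hQ F (IntermediateField.fixedField U) hFE O hO
    have hP := hq1 _ _ (hc O₁ h1) (hc O₂ h2)
    exact ih (IntermediateField.fixedField U) M hEM _ (hq2 _ (hc O₁ h1)) O₁ O₂ rfl hP.symm

end Pool.Agent.Y210.ET
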